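import Mathlib
import Pool.Agent.Y666.SP.Stm2

/-!
# Project SP, part 2: the statements KSTAR and KMP
-/

set_option autoImplicit false

open Cardinal

namespace Pool.Agent.Y666.SP

namespace Y314

variable {α : Type} [PartialOrder α] {κ : Cardinal.{0}} {E : Set α}

/-- the germ generated by a large chain -/
def chGerm (D : Set α) (hDE : D ⊆ E) (hD : KLarge κ D) : KGerm κ E where
  carrier := {y | y ∈ E ∧ ∃ d ∈ D, d ≤ y}
  sub := fun _ hy => hy.1
  nonempty := by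
    obtain ⟨d, hd⟩ := hD.1
    exact ⟨d, hDE hd, d, hd, le_rfl⟩
  up := by
    rintro x ⟨_, d, hd, hdx⟩ y hy hxy
    exact ⟨hy, d, hd, hdx.trans hxy⟩
  dir := by
    rintro x ⟨_, d, hd, hdx⟩ y ⟨_, e, he, hey⟩
    rcases hD.2.1.total hd he with h | h
    · exact ⟨d, ⟨hDE hd, d, hd, le_rfl⟩, hdx, h.trans hey⟩
    · exact ⟨e, ⟨hDE he, e, he, le_rfl⟩, h.trans hdx, hey⟩
  large := by
    rintro x ⟨_, d, hd, hdx⟩
    refine (hD.2.2 d hd).trans (Cardinal.mk_le_mk_of_subset ?_)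
    rintro y ⟨hy, hyd⟩
    exact ⟨⟨hDE hy, y, hy, le_rfl⟩, hyd.trans hdx⟩

theorem kll_lle {a b c : KGerm κ E} (h1 : kll a b) (h2 : b ≤ c) : kll a c := by
  obtain ⟨p, hp, hq⟩ := h1
  exact ⟨p, hp, fun q hq' => hq q (h2 hq')⟩

end Y314

open Y314

theorem t_KSTAR : S_KSTAR := by
  intro α _ κ E G hG D hDB hD x hxB hsame
  by_contra hcon
  have hcon' : ∀ d ∈ D, ¬ d ≤ x := fun d hd h => hcon ⟨d, hd, h⟩
  have hDE : D ⊆ E := fun d hd => (hDB hd).1
  set F : KGerm κ E := chGerm D hDE hD with hF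
  have hxF : x ∉ F.carrier := fun ⟨_, d, hd, hdx⟩ => hcon' d hd hdx
  obtain ⟨d0, hd0⟩ := hD.1
  have hA : ∀ g ∈ G, x ∉ g.carrier → kll F g := by
    intro g hg hx
    have h0 : d0 ∉ g.carrier := fun h => hx ((hsame d0 hd0 g hg).1 h)
    rcases (hDB hd0).2 g hg with h | h
    · exact (h0 h).elim
    · exact ⟨d0, ⟨hDE hd0, d0, hd0, le_rfl⟩, h⟩
  have hB : ∀ g ∈ G, x ∈ g.carrier → g ≤ F := by
    intro g hg hx
    rintro y ⟨hyE, d, hd, hdy⟩
    exact g.up d ((hsame d hd g hg).2 hx) y hyE hdy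
  have hm := hG.mx F
  push Not at hm
  obtain ⟨l, hl, hl1, hl2⟩ := hm
  have hxl : x ∈ l.carrier := by
    by_contra h
    exact hl2 (hA l hl h)
  have hlF : l ≤ F := hB l hl hxl
  have hne : l ≠ F := fun h => hxF (h ▸ hxl)
  have hlt : l < F := lt_of_le_of_ne hlF hne
  have hsw : ¬ ∀ h ∈ G, kll l h → kll F h := fun h => hl1 (hG.sw l hl F hlt h)
  push Not at hsw
  obtain ⟨h, hh, hlh, hFh⟩ := hsw
  have hxh : x ∈ h.carrier := by
    by_contra hx
    exact hFh (hA h hh hx)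
  exact hl1 (kll_lle hlh (hB h hh hxh))

theorem t_KMP : S_KMP := by
  intro α _ κ E G hG g hg D hDB hD hDg
  have hDE : D ⊆ E := fun d hd => (hDB hd).1
  set F : KGerm κ E := chGerm D hDE hD with hF
  have hgF : g ≤ F := by
    rintro y ⟨hyE, d, hd, hdy⟩
    exact g.up d (hDg hd) y hyE hdy
  by_cases heq : g = F
  · left
    intro z hz
    rw [heq] at hz
    exact hz.2
  by_cases hgl : kll g F
  · right
    obtain ⟨p, hp, hq⟩ := hgl
    exact ⟨p, hp, fun d hd => hq d ⟨hDE hd, d, hd, le_rfl⟩⟩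
  exfalso
  have hlt : g < F := lt_of_le_of_ne hgF heq
  have hsw : ¬ ∀ h ∈ G, kll g h → kll F h := fun h => hgl (hG.sw g hg F hlt h)
  push Not at hsw
  obtain ⟨h, hh, hlh, hFh⟩ := hsw
  have hall : ∀ d ∈ D, d ∈ h.carrier := by
    intro d hd
    rcases (hDB hd).2 h hh with h1 | h1
    · exact h1
    · exact (hFh ⟨d, ⟨hDE hd, d, hd, le_rfl⟩, h1⟩).elim
  have hhF : h ≤ F := by
    rintro y ⟨hyE, d, hd, hdy⟩
    exact h.up d (hall d hd) y hyE hdy
  exact hgl (kll_lle hlh hhF)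

end Pool.Agent.Y666.SP
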